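import Pool.Agent.H88.MSeq4

set_option autoImplicit false

namespace Pool.Agent.Results.MP_5e2fde_an.Three

open Pool.Agent.H88.MSeq

theorem result (s : ℝ) (hs : 0 < s) :
    IsLPplus (fun k : ℕ => (k : ℝ) ^ s / (k.factorial : ℝ) ^ 3) :=
  lp_rpow hs

end Pool.Agent.Results.MP_5e2fde_an.Three
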